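import Pool.Agent.MP_cce4c9_lc.H87.SpecQ

/-!
Descent to the coordinate ring.
-/

set_option autoImplicit false

open WithZero Polynomial Finset Filter

namespace Pool.Agent.MP_cce4c9_lc.H81

open Pool.Agent.MP_cce4c9_lc.H87 Pool.Agent.MP_cce4c9_lc.H87.Cv

theorem ev_pow {x : WithZero (Multiplicative ℤ)} (hx : x ≠ 0) :
    ∀ᶠ K : ℕ in atTop, ∀ z : WithZero (Multiplicative ℤ), z < 1 → z ^ K ≤ x := by
  filter_upwards [eventually_ge_atTop (-log x).toNat] with K hK z hz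
  by_cases h0 : z = 0
  · rcases Nat.eq_zero_or_pos K with rfl | hp
    · rw [pow_zero, ← exp_log hx, ← exp_zero, exp_le_exp]
      omega
    · simp [h0, hp.ne']
  · rw [← exp_log h0, ← exp_zero, exp_lt_exp] at hz
    rw [← exp_log h0, ← exp_log hx, ← exp_nsmul, exp_le_exp, nsmul_eq_mul]
    have : (K : ℤ) * log z ≤ K * (-1) := mul_le_mul_of_nonneg_left (by omega) (by omega)
    omega

variable {k : Type} [Field k] {d m : ℕ} {f : k[X]} {C : Cv k d m f}

theorem near1 {v : Place k C.Q} {a : C.Q} (h : v.val (a - 1) < 1) : v.val a = 1 :=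
  near_one (c := (1 : k)) one_ne_zero (by rwa [map_one])

theorem s_mem : C.s ∈ C.AI := Algebra.subset_adjoin (Set.mem_insert _ _)

theorem aeval_mem (g : k[X]) : aeval C.s g ∈ C.AI :=
  (Algebra.adjoin_le (Set.singleton_subset_iff.2 s_mem) : Algebra.adjoin k {C.s} ≤ C.AI)
    (aeval_mem_adjoin_singleton k C.s)

theorem dlhU (H : C.HA) : IsUnit C.dlh := (C.su.isUnit.pow _).mul H.dlU

theorem unit_ne (v : Place k C.Q) {y : C.Q} (h : IsUnit y) : v.val y ≠ 0 := by
  obtain ⟨u, rfl⟩ := h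
  exact v.val_unit_ne u

theorem exK (H : C.HA) : ∀ᶠ K : ℕ in atTop,
    (∀ v, C.Bad v → ∀ z : WithZero (Multiplicative ℤ), z < 1 → z ^ K ≤ v.val C.dl) ∧
    ∀ v : Place k C.Q, 1 < v.val C.t → ∀ z : WithZero (Multiplicative ℤ), z < 1 →
      z ^ K ≤ v.val C.dlh :=
  ((eventually_all_finite H.bad.1).2 fun v _ => ev_pow (unit_ne v H.dlU)).and
    ((eventually_all_finite H.infs).2 fun v _ => ev_pow (unit_ne v (dlhU H)))

theorem sep (H : C.HA) (a : ℕ → k) (S : Finset (Place k C.Q))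
    (hS : ∀ v ∈ S, v.val C.t ≤ 1 ∧ ¬ C.At v a) :
    ∃ e ∈ C.AA, (∀ v ∈ S, v.val e < 1) ∧ ∀ w, C.At w a → w.val (e - algebraMap k C.Q 1) < 1 := by
  classical
  induction S using Finset.induction_on with
  | empty => exact ⟨1, one_mem _, by simp, by simp⟩
  | insert v S _ ih =>
    obtain ⟨e, he, h1, h2⟩ := ih fun w hw => hS w (mem_insert_of_mem hw)
    obtain ⟨hv, hn⟩ := hS v (mem_insert_self _ _)
    simp only [At, not_forall] at hn
    obtain ⟨i, hi, hn⟩ := hn
    have hb := H.at_ev v hv i hi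
    set b := v.ev (C.x i)
    have hab : a i - b ≠ 0 := fun h => hn (by rwa [sub_eq_zero.1 h])
    have hx : C.x i ∈ C.AA := Algebra.subset_adjoin ⟨i, hi, rfl⟩
    have hm : algebraMap k C.Q (a i - b)⁻¹ * (C.x i - algebraMap k C.Q b) ∈ C.AA :=
      mul_mem (algebraMap_mem _ _) (sub_mem hx (algebraMap_mem _ _))
    refine ⟨e * (algebraMap k C.Q (a i - b)⁻¹ * (C.x i - algebraMap k C.Q b)), mul_mem he hm,
      fun w hw => ?_, fun w hw => ?_⟩
    · rw [map_mul]
      rcases mem_insert.1 hw with rfl | hw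
      · rw [mul_comm, map_mul, mul_comm (w.val _)]
        exact mul_lt_one_of_lt_of_le (mul_lt_one_of_lt_of_le hb (w.const_le _)) (H.finA w hv e he)
      · exact mul_lt_one_of_lt_of_le (h1 w hw)
          (H.finA w (hS w (mem_insert_of_mem hw)).1 _ hm)
    · have h3 : w.val (C.x i - algebraMap k C.Q b - algebraMap k C.Q (a i - b)) < 1 := by
        rw [map_sub (algebraMap k C.Q), sub_sub_sub_cancel_right]
        exact hw i hi
      have := near_mul (h2 w hw) (near_mul (c := (a i - b)⁻¹)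
        (a := algebraMap k C.Q (a i - b)⁻¹) (by simp) h3)
      rwa [inv_mul_cancel₀ hab, one_mul] at this

theorem int (H : C.HA) (g : Place k C.Q → k)
    (hg : ∀ v w a, C.Bad v → C.At v a → C.At w a → g v = g w) :
    ∃ y ∈ C.AA, ∀ v, C.Bad v → v.val (y - algebraMap k C.Q (g v)) < 1 := by
  classical
  have key : ∀ S : Finset (Place k C.Q), (∀ v ∈ S, C.Bad v) →
      ∃ y ∈ C.AA, ∀ v ∈ S, v.val (y - algebraMap k C.Q (g v)) < 1 := by
    intro S
    induction S using Finset.induction_on with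
    | empty => exact fun _ => ⟨1, one_mem _, by simp⟩
    | insert v S _ ih =>
      intro hS
      obtain ⟨y, hy, h1⟩ := ih fun w hw => hS w (mem_insert_of_mem hw)
      have hv := hS v (mem_insert_self _ _)
      have ha := H.at_ev v hv.1
      obtain ⟨c, hc⟩ := H.atA y hy fun i => v.ev (C.x i)
      by_cases h : ∃ w ∈ S, C.At w fun i => v.ev (C.x i)
      · obtain ⟨w, hw, hw'⟩ := h
        refine ⟨y, hy, fun u hu => ?_⟩
        rcases mem_insert.1 hu with rfl | hu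
        · rw [hg u w _ hv ha hw', w.const_eq (h1 w hw) (hc w hw')]
          exact hc u ha
        · exact h1 u hu
      · obtain ⟨e, he, h2, h3⟩ := sep H (fun i => v.ev (C.x i)) S fun w hw =>
          ⟨(hS w (mem_insert_of_mem hw)).1, fun a => h ⟨w, hw, a⟩⟩
        refine ⟨y + algebraMap k C.Q (g v - c) * e,
          add_mem hy (mul_mem (algebraMap_mem _ _) he), fun u hu => ?_⟩
        rcases mem_insert.1 hu with rfl | hu
        · rw [show y + algebraMap k C.Q (g u - c) * e - algebraMap k C.Q (g u) =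
            (y - algebraMap k C.Q c) + (e - algebraMap k C.Q 1) * algebraMap k C.Q (g u - c) by
              rw [map_sub, map_one]; ring]
          refine (u.val.map_add _ _).trans_lt (max_lt (hc u ha) ?_)
          rw [map_mul]
          exact mul_lt_one_of_lt_of_le (h3 u ha) (u.const_le _)
        · rw [add_sub_right_comm]
          refine (u.val.map_add _ _).trans_lt (max_lt (h1 u hu) ?_)
          rw [map_mul, mul_comm]
          exact mul_lt_one_of_lt_of_le (h2 u hu) (u.const_le _)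
  obtain ⟨y, hy, h⟩ := key H.bad.1.toFinset fun v hv => by simpa using hv
  exact ⟨y, hy, fun v hv => h v (by simpa using hv)⟩

theorem div_le (v : Place k C.Q) {y : C.Q} {u : C.Qˣ} (h : v.val y ≤ v.val (u : C.Q)) :
    v.val (((u⁻¹ : C.Qˣ) : C.Q) * y) ≤ 1 := by
  rw [map_mul]
  refine (mul_le_mul_right h _).trans ?_
  rw [← map_mul, u.inv_mul, map_one]

theorem mem (H : C.HA) (O : C.CO) (N : ℕ) (y : C.Q)
    (h1 : ∃ a ∈ C.AA, ∀ v : Place k C.Q, v.val C.t ≤ 1 → v.val (y - a) ≤ v.val C.dl)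
    (h2 : ∃ b ∈ C.AI, ∀ v : Place k C.Q, 1 < v.val C.t → v.val (y * C.s ^ N - b) ≤ v.val C.dlh) :
    y * C.s ^ N ∈ C.FN N := by
  obtain ⟨a, ha, h1⟩ := h1
  obtain ⟨b, hb, h2⟩ := h2
  obtain ⟨u, hu⟩ := H.dlU
  obtain ⟨u', hu'⟩ := dlhU H
  have hy : y ∈ C.AA := by
    have := O.1 _ fun v hv => div_le v (u := u) (hu ▸ h1 v hv)
    rw [← hu, u.mul_inv_cancel_left] at this
    simpa using add_mem this ha
  obtain ⟨g, hg, hg'⟩ := O.2 _ fun v hv => div_le v (u := u') (hu' ▸ h2 v hv)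
  rw [← hu', u'.mul_inv_cancel_left] at hg'
  obtain ⟨K, hK⟩ := (H.memA y).1 hy
  have hK' := (H.memI _).2 ⟨K, hK⟩
  have hc : IsCoprime g (X ^ K) := by
    refine IsCoprime.pow_right (irreducible_X.coprime_iff_not_dvd.2 ?_).symm
    rwa [X_dvd_iff, coeff_zero_eq_eval_zero]
  obtain ⟨α, β, e⟩ := hc
  have e' := congrArg (aeval C.s) e
  simp only [map_add, map_mul, map_pow, aeval_X, map_one] at e'
  refine H.degI N y hy ?_
  have : y * C.s ^ N = aeval C.s α * (aeval C.s g * (y * C.s ^ N - b) + aeval C.s g * b) +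
      aeval C.s β * (y * C.s ^ K * C.s ^ N) := by
    linear_combination (-(y * C.s ^ N)) * e'
  rw [this]
  exact add_mem (mul_mem (aeval_mem _) (add_mem hg' (mul_mem (aeval_mem _) hb)))
    (mul_mem (aeval_mem _) (mul_mem hK' (pow_mem s_mem _)))

theorem gg_inf {N : ℕ} {u : C.Qˣ} (h : C.GG N u) (v : Place k C.Q) (hv : 1 < v.val C.t) :
    v.val ((u : C.Q) * C.s ^ N - 1) < 1 := by
  have := h.1 v hv
  rwa [zpow_natCast, Units.val_mul, Units.val_pow_eq_pow_val] at this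

theorem gg_ev (H : C.HA) {n : ℤ} {u : C.Qˣ} (h : C.GG n u) :
    (∀ v w a, C.Bad v → C.At v a → C.At w a → v.ev (u : C.Q) = w.ev (u : C.Q)) ∧
    ∀ v, C.Bad v → v.ev (u : C.Q) ≠ 0 ∧
      v.val ((u : C.Q) - algebraMap k C.Q (v.ev (u : C.Q))) < 1 := by
  refine ⟨fun v w a hv h1 h2 => ?_, fun v hv => ?_⟩
  · obtain ⟨c, -, hc⟩ := h.2 a v h1 hv.2
    rw [v.ev_eq (hc v h1), w.ev_eq (hc w h2)]
  · obtain ⟨c, h0, hc⟩ := h.2 _ v (H.at_ev v hv.1) hv.2
    rw [v.ev_eq (hc v (H.at_ev v hv.1))]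
    exact ⟨h0, hc v (H.at_ev v hv.1)⟩

theorem quo (H : C.HA) (O : C.CO) (N N' : ℕ) (y : C.Q) (b : C.Qˣ) (hb : C.GG N' b)
    (h1 : (b : C.Q) * C.s ^ N' ∈ C.FN N') (h2 : y * b * C.s ^ (N + N') ∈ C.FN (N + N'))
    (hy : ∀ v : Place k C.Q, v.val C.t ≤ 1 → v.val y ≤ 1) : y * C.s ^ N ∈ C.FN N := by
  obtain ⟨K, hK1, hK2⟩ := (exK H).exists
  have bA := (H.memA _).2 ⟨_, h1⟩
  have yA := (H.memA _).2 ⟨_, h2⟩
  have bI := (H.memI _).2 ⟨_, h1⟩
  have yI := (H.memI _).2 ⟨_, h2⟩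
  obtain ⟨e1, e2⟩ := gg_ev H hb
  obtain ⟨a, ha, ha'⟩ := int H (fun v => (v.ev (b : C.Q))⁻¹) fun v w a hv h h' => by
    rw [e1 v w a hv h h']
  refine mem H O N y ⟨y * b * a * ∑ i ∈ range K, (1 - a * b) ^ i, ?_, fun v hv => ?_⟩
    ⟨y * b * C.s ^ (N + N') * ∑ i ∈ range K, (1 - b * C.s ^ N') ^ i, ?_, fun v hv => ?_⟩
  · exact mul_mem (mul_mem yA ha)
      (sum_mem fun i _ => pow_mem (sub_mem (one_mem _) (mul_mem ha bA)) _)
  · have : y - y * b * a * ∑ i ∈ range K, (1 - a * b) ^ i = y * (1 - a * b) ^ K := by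
      linear_combination y * geom_sum_mul (1 - a * (b : C.Q)) K
    rw [this, map_mul, map_pow]
    refine (mul_le_of_le_one_left' (hy v hv)).trans ?_
    by_cases hB : C.Bad v
    · refine hK1 v hB _ ?_
      have := near_mul (ha' v hB) (e2 v hB).2
      rwa [inv_mul_cancel₀ (e2 v hB).1, map_one, Valuation.map_sub_swap] at this
    · exact (pow_le_one' (H.finA v hv _ (sub_mem (one_mem _) (mul_mem ha bA))) _).trans
        (not_lt.1 fun h => hB ⟨hv, h⟩)
  · exact mul_mem yI (sum_mem fun i _ => pow_mem (sub_mem (one_mem _) bI) _)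
  · have : y * C.s ^ N - y * b * C.s ^ (N + N') * ∑ i ∈ range K, (1 - b * C.s ^ N') ^ i =
        y * C.s ^ N * (1 - b * C.s ^ N') ^ K := by
      linear_combination (y * C.s ^ N) * geom_sum_mul (1 - (b : C.Q) * C.s ^ N') K
    rw [this, map_mul, map_pow]
    have h3 := gg_inf hb v hv
    have h4 : v.val ((b : C.Q) * C.s ^ N') = 1 := near1 h3
    have h5 := (H.infI v hv).2.2.2.1 _ yI
    rw [show y * b * C.s ^ (N + N') = y * C.s ^ N * (b * C.s ^ N') by ring, map_mul, h4,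
      mul_one] at h5
    exact (mul_le_of_le_one_left' h5).trans (hK2 v hv _ (by rwa [Valuation.map_sub_swap]))

theorem root (p : ℕ) [Fact p.Prime] [CharP k p] (A : C.QA) (H : C.HA) (O : C.CO) (l N : ℕ)
    (y : C.Qˣ) (hl : (l : k) ≠ 0) (hy : C.GG N y)
    (h : (y : C.Q) ^ l * C.s ^ (l * N) ∈ C.FN (l * N)) : (y : C.Q) * C.s ^ N ∈ C.FN N := by
  have hp : p.Prime := Fact.out
  obtain ⟨v₀, -⟩ := A.inf
  have : Nontrivial C.Q := ⟨0, 1, fun e => by simpa using congrArg v₀.val e⟩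
  have : CharP C.Q p := charP_of_injective_algebraMap (algebraMap k C.Q).injective p
  have l0 : l ≠ 0 := fun e => hl (by simp [e])
  have hc : Nat.Coprime p l := hp.coprime_iff_not_dvd.2 fun e => hl ((CharP.cast_eq_zero_iff k p l).2 e)
  obtain ⟨K, hK⟩ := eventually_atTop.1 (exK H)
  have hP : K ≤ p ^ (l.totient * K) :=
    (Nat.le_mul_of_pos_left K (Nat.totient_pos.2 (Nat.pos_of_ne_zero l0))).trans
      (Nat.lt_pow_self hp.one_lt).le
  obtain ⟨hK1, hK2⟩ := hK _ hP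
  obtain ⟨M, hM⟩ : ∃ M, p ^ (l.totient * K) = 1 + l * M := by
    have h1 : 1 ≡ p ^ (l.totient * K) [MOD l] := by
      simpa [pow_mul] using ((Nat.ModEq.pow_totient hc).pow K).symm
    obtain ⟨M, hM⟩ := (Nat.modEq_iff_dvd' (Nat.one_le_pow _ _ hp.pos)).1 h1
    have := Nat.one_le_pow (l.totient * K) _ hp.pos
    exact ⟨M, by omega⟩
  have yA := (H.memA _).2 ⟨_, h⟩
  have y1 : ∀ v : Place k C.Q, v.val C.t ≤ 1 → v.val (y : C.Q) ≤ 1 := fun v hv => by
    have := H.finA v hv _ yA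
    rwa [map_pow, pow_le_one_iff l0] at this
  obtain ⟨e1, e2⟩ := gg_ev H hy
  obtain ⟨a, ha, ha'⟩ := int H (fun v => v.ev (y : C.Q)) e1
  have h2 := mem H O (p ^ (l.totient * K) * N) ((y : C.Q) ^ p ^ (l.totient * K))
    ⟨a ^ p ^ (l.totient * K), pow_mem ha _, fun v hv => ?_⟩ ⟨1, one_mem _, fun v hv => ?_⟩
  · refine quo H O N (l * M * N) y (y ^ (l * M)) (by simpa using hy.pow (l * M)) ?_ ?_ y1
    · have := H.powF _ _ M h
      rwa [mul_pow, ← pow_mul, ← pow_mul, show l * N * M = l * M * N by ring,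
        show M * (l * N) = l * M * N by ring, ← Units.val_pow_eq_pow_val] at this
    · rw [hM, add_mul, one_mul, pow_add, pow_one] at h2
      rwa [Units.val_pow_eq_pow_val]
  · rw [← sub_pow_char_pow, map_pow]
    by_cases hB : C.Bad v
    · refine hK1 v hB _ ?_
      rw [← sub_sub_sub_cancel_right _ _ (algebraMap k C.Q (v.ev (y : C.Q)))]
      exact (v.val.map_sub _ _).trans_lt (max_lt (e2 v hB).2 (ha' v hB))
    · exact (pow_le_one' ((v.val.map_sub _ _).trans (max_le (y1 v hv) (H.finA v hv a ha))) _).trans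
        (not_lt.1 fun h => hB ⟨hv, h⟩)
  · rw [mul_comm _ N, pow_mul C.s, ← mul_pow, ← one_pow (p ^ (l.totient * K)), ← sub_pow_char_pow,
      map_pow]
    exact hK2 v hv _ (gg_inf hy v hv)

theorem de : StmtDE := by
  intro k _ _ p d m _ _ f C A H O
  refine ⟨int H, mem H O, quo H O, root p A H O, fun N y h1 h2 h3 => ?_, fun n n' u h h' => ?_,
    fun n u h v hv => near_one ((gg_ev H h).2 v hv).1 ((gg_ev H h).2 v hv).2⟩
  · obtain ⟨u, rfl⟩ := A.unit y fun v hv e => by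
      have := near1 (h2 v hv)
      rw [map_mul, e, zero_mul] at this
      exact zero_ne_one this
    refine ⟨u, rfl, fun v hv => ?_, fun a v₀ h0 hd => ?_⟩
    · rw [zpow_natCast, Units.val_mul, Units.val_pow_eq_pow_val]
      exact h2 v hv
    · obtain ⟨c, hc⟩ := H.atA _ ((H.memA _).2 ⟨_, h1⟩) a
      refine ⟨c, fun e => ?_, hc⟩
      have := hc v₀ h0
      rw [e, map_zero, sub_zero, h3 v₀ ⟨(H.atT v₀ a h0).1, hd⟩] at this
      exact lt_irrefl _ this
  · obtain ⟨v, hv⟩ := A.inf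
    have h1 := (h.mul h'.inv).1 v hv
    rw [mul_inv_cancel, one_mul] at h1
    have h2 := near1 h1
    have h3 := map_zpow ((v.val : C.Q →* WithZero (Multiplicative ℤ)).comp (Units.coeHom C.Q))
      C.su (n + -n')
    have h4 : v.val C.s ^ (n + -n') = 1 := h3.symm.trans h2
    have := (zpow_eq_one_iff_right₀ zero_le (H.infI v hv).1.ne).1 h4
    omega

end Pool.Agent.MP_cce4c9_lc.H81
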