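import Pool.Agent.MP_cce4c9_lc.H87.SpecR
import Pool.Agent.MP_cce4c9_lc.H87.KitA

/-!
A non-vanishing minor of the Taylor matrix at a rigid solution.
-/

set_option autoImplicit false

open Polynomial

namespace Pool.Agent.MP_cce4c9_lc.H81

open Pool.Agent.MP_cce4c9_lc.H87

theorem sum_fm {M : Type} [AddCommMonoid M] (A : ℕ) (n : ℕ → ℕ) (g : ℕ → ℕ → ℕ × ℕ)
    (h : ℕ × ℕ → M) :
    (((List.range A).flatMap fun a => (List.range (n a)).map (g a)).map h).sum =
      ∑ a ∈ Finset.range A, ∑ e ∈ Finset.range (n a), h (g a e) := by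
  induction A with
  | zero => simp
  | succ A ih =>
    rw [List.range_succ, List.flatMap_append, List.map_append, List.sum_append, ih,
      Finset.sum_range_succ, List.flatMap_singleton, List.map_map]
    rfl

theorem nodup_fm (A : ℕ) (n : ℕ → ℕ) (g : ℕ → ℕ → ℕ × ℕ)
    (hg : ∀ a e a' e', g a e = g a' e' → a = a' ∧ e = e') :
    ((List.range A).flatMap fun a => (List.range (n a)).map (g a)).Nodup := by
  rw [List.nodup_flatMap]
  refine ⟨fun a _ => List.nodup_range.map fun e e' h => (hg _ _ _ _ h).2,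
    List.nodup_range.imp fun {a a'} h => ?_⟩
  intro x hx hx'
  obtain ⟨e, -, rfl⟩ := List.mem_map.1 hx
  obtain ⟨e', -, h'⟩ := List.mem_map.1 hx'
  exact h (hg _ _ _ _ h').1.symm

theorem ds_zero (d m : ℕ) : ds d m 0 = 0 := by simp [ds_eq, dig]

theorem ds_le {d : ℕ} (hd : 0 < d) (m J : ℕ) : ds d m J ≤ m * (d - 1) := by
  rw [ds_eq]
  refine (Finset.sum_le_card_nsmul _ _ (d - 1) fun i _ => ?_).trans (by simp)
  have := dig_lt hd J i
  omega

theorem mem_cols {d m N : ℕ} {p : ℕ × ℕ} :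
    p ∈ cols d m N ↔ (p.2 < d ^ m ∧ p.1 + ds d m p.2 ≤ N) ∧ p ≠ (0, 0) := by
  simp only [cols, List.mem_filter, List.mem_flatMap, List.mem_map, List.mem_range, bne_iff_ne]
  refine and_congr_left fun _ => ⟨?_, fun h => ⟨p.2, h.1, p.1, by omega, rfl⟩⟩
  rintro ⟨J, hJ, e, he, rfl⟩
  exact ⟨hJ, by simp only; omega⟩

theorem nodup_cols (d m N : ℕ) : (cols d m N).Nodup :=
  (nodup_fm _ _ (fun J e => (e, J)) fun _ _ _ _ h => by
    simpa [and_comm] using h).filter _

theorem sum_cols {M : Type} [AddCommMonoid M] {d : ℕ} (hd : 0 < d) (m N : ℕ) (h : ℕ × ℕ → M) :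
    ∑ J ∈ Finset.range (d ^ m), ∑ e ∈ Finset.range (N + 1 - ds d m J), h (e, J) =
      h (0, 0) + ∑ j : Fin (cols d m N).length, h ((cols d m N).getD j (0, 0)) := by
  have nd := nodup_fm (d ^ m) (fun J => N + 1 - ds d m J) (fun J e => (e, J)) fun _ _ _ _ h => by
    simpa [and_comm] using h
  have hm : ((0, 0) : ℕ × ℕ) ∈ (List.range (d ^ m)).flatMap fun J =>
      (List.range (N + 1 - ds d m J)).map fun e => (e, J) := by
    simp only [List.mem_flatMap, List.mem_map, List.mem_range]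
    exact ⟨0, pow_pos hd _, 0, by simp [ds_zero], rfl⟩
  rw [← sum_fm (d ^ m) (fun J => N + 1 - ds d m J) (fun J e => (e, J)) h,
    ((List.perm_cons_erase hm).map h).sum_eq, nd.erase_eq_filter, List.map_cons, List.sum_cons]
  congr 1
  change ((cols d m N).map h).sum = _
  rw [← Fin.sum_univ_fun_getElem]
  exact Finset.sum_congr rfl fun j _ => by rw [List.getD_eq_getElem _ _ j.2]

theorem mem_rows {d m l : ℕ} {μ : List ℕ} {p : ℕ × ℕ} :
    p ∈ rowsL d m l μ ↔ p.1 < mm d m ∧ p.2 < l * min (μ.getD p.1 0) (mm d m) := by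
  simp only [rowsL, List.mem_flatMap, List.mem_map, List.mem_range]
  refine ⟨?_, fun h => ⟨p.1, h.1, p.2, h.2, rfl⟩⟩
  rintro ⟨j, hj, r, hr, rfl⟩
  exact ⟨hj, hr⟩

theorem nodup_rows (d m l : ℕ) (μ : List ℕ) : (rowsL d m l μ).Nodup :=
  nodup_fm _ _ (fun j r => (j, r)) fun _ _ _ _ h => by simpa using h

theorem length_rows {d m l : ℕ} {μ : List ℕ}
    (h : ∑ j ∈ Finset.range (mm d m), μ.getD j 0 = mm d m) :
    (rowsL d m l μ).length ≤ l * mm d m := by
  have := sum_fm (mm d m) (fun j => l * min (μ.getD j 0) (mm d m)) (fun j r => (j, r)) fun _ => 1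
  simp only [List.map_const', List.sum_replicate, smul_eq_mul, mul_one, Finset.sum_const,
    Finset.card_range] at this
  rw [rowsL, this, ← Finset.mul_sum]
  refine Nat.mul_le_mul_left _ ?_
  exact (Finset.sum_le_sum fun j _ => min_le_left _ _).trans h.le

theorem length_cols {d : ℕ} (hd : 0 < d) (m N : ℕ) :
    d ^ m * N ≤ (cols d m N).length + g0 d m := by
  have h1 := sum_cols hd m N fun _ => 1
  simp only [Finset.sum_const, Finset.card_range, smul_eq_mul, mul_one, Finset.card_univ,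
    Fintype.card_fin] at h1
  have h2 : ∑ _J ∈ Finset.range (d ^ m), (N + 1) ≤
      ∑ J ∈ Finset.range (d ^ m), (N + 1 - ds d m J + m * d) :=
    Finset.sum_le_sum fun J _ => by
      have := (ds_le hd m J).trans (Nat.mul_le_mul_left m (Nat.sub_le d 1))
      omega
  rw [Finset.sum_const, Finset.sum_add_distrib, h1] at h2
  simp only [Finset.sum_const, Finset.card_range, smul_eq_mul, mul_add, mul_one] at h2
  have := pow_pos hd m
  rw [g0, mul_assoc]
  omega

variable {k : Type} [Field k]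

theorem choose_rows {n : ℕ} (r : ℕ × ℕ → Fin n → k) (W : Set (ℕ × ℕ))
    (h : ∀ x : Fin n → k, (∀ ρ ∈ W, ∑ j, x j * r ρ j = 0) → x = 0) :
    ∃ S₀ ⊆ W, ∀ S : List (ℕ × ℕ), S.Nodup → (∀ ρ, ρ ∈ S ↔ ρ ∈ S₀) → S.length = n ∧
      (Matrix.of fun i j : Fin n => r (S.getD i (0, 0)) j).det ≠ 0 := by
  classical
  obtain ⟨S₀, h1, -, h2, h3⟩ :=
    exists_linearIndepOn_extension (linearIndepOn_empty k r) (Set.empty_subset W)
  refine ⟨S₀, h1, fun S nd hS => ?_⟩
  have top : Submodule.span k (r '' S₀) = ⊤ := by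
    by_contra hne
    obtain ⟨φ, h0, hφ⟩ := Submodule.exists_le_ker_of_lt_top _ (lt_top_iff_ne_top.2 hne)
    have e : ∀ v, φ v = ∑ j, φ (Pi.single j 1) * v j := fun v => by
      rw [LinearMap.pi_apply_eq_sum_univ]
      refine Finset.sum_congr rfl fun j _ => ?_
      rw [smul_eq_mul, mul_comm]
      congr 2
      funext i
      simp [Pi.single_apply, eq_comm]
    have := h (fun j => φ (Pi.single j 1)) fun ρ hρ => by
      rw [← e]
      exact hφ (h2 ⟨ρ, hρ, rfl⟩)
    refine h0 (LinearMap.ext fun v => ?_)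
    rw [e]
    exact Finset.sum_eq_zero fun j _ => by rw [congrFun this j, Pi.zero_apply, zero_mul]
  have li : ∀ n', n' ≤ S.length → LinearIndependent k fun i : Fin n' => r (S.getD i (0, 0)) := by
    intro n' hn
    refine h3.comp (fun i : Fin n' => ⟨S.getD i (0, 0), (hS _).1 ?_⟩) fun i j hij => ?_
    · rw [List.getD_eq_getElem _ _ (i.2.trans_le hn)]
      exact List.getElem_mem _
    · have := congrArg Subtype.val hij
      simp only [List.getD_eq_getElem _ _ (i.2.trans_le hn),
        List.getD_eq_getElem _ _ (j.2.trans_le hn)] at this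
      exact Fin.ext (nd.getElem_inj_iff.1 this)
  have hl : S.length = n := by
    have := finrank_span_eq_card (li _ le_rfl)
    have e : (Set.range fun i : Fin S.length => r (S.getD i (0, 0))) = r '' S₀ := by
      ext v
      constructor
      · rintro ⟨i, rfl⟩
        refine ⟨_, (hS _).1 ?_, rfl⟩
        rw [List.getD_eq_getElem _ _ i.2]
        exact List.getElem_mem _
      · rintro ⟨ρ, hρ, rfl⟩
        obtain ⟨i, hi, rfl⟩ := List.getElem_of_mem ((hS _).2 hρ)
        exact ⟨⟨i, hi⟩, by simp only [List.getD_eq_getElem _ _ hi]⟩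
    rw [e, top, finrank_top] at this
    simpa using this.symm
  refine ⟨hl, IsUnit.ne_zero ?_⟩
  rw [← Matrix.isUnit_iff_isUnit_det, ← Matrix.linearIndependent_rows_iff_isUnit]
  exact li n hl.ge

section
variable (f : k[X]) {d : ℕ} (m l : ℕ) (b : ℕ → k)

/-- the rows of the Taylor matrix without the first column. -/
noncomputable def rw' (d : ℕ) (ρ : ℕ × ℕ) (j : Fin (cols d m (l * N0 d m)).length) : k :=
  TT f d m l b ρ ((cols d m (l * N0 d m)).getD j (0, 0)).1 ((cols d m (l * N0 d m)).getD j (0, 0)).2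

theorem col_mem (j : Fin (cols d m (l * N0 d m)).length) :
    (cols d m (l * N0 d m)).getD j (0, 0) ∈ cols d m (l * N0 d m) := by
  rw [List.getD_eq_getElem _ _ j.2]
  exact List.getElem_mem _

theorem col_inj {i j : Fin (cols d m (l * N0 d m)).length}
    (h : (cols d m (l * N0 d m)).getD i (0, 0) = (cols d m (l * N0 d m)).getD j (0, 0)) : i = j := by
  rw [List.getD_eq_getElem _ _ i.2, List.getD_eq_getElem _ _ j.2] at h
  exact Fin.ext ((nodup_cols _ _ _).getElem_inj_iff.1 h)

theorem col_ex {e J : ℕ} (hJ : J < d ^ m) (he : e + ds d m J ≤ l * N0 d m) (h0 : (e, J) ≠ (0, 0)) :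
    ∃ j : Fin (cols d m (l * N0 d m)).length, (cols d m (l * N0 d m)).getD j (0, 0) = (e, J) := by
  obtain ⟨i, hi, h⟩ := List.getElem_of_mem ((mem_cols (p := (e, J))).2 ⟨⟨hJ, he⟩, h0⟩)
  exact ⟨⟨i, hi⟩, by rw [List.getD_eq_getElem _ _ hi, h]⟩

theorem van_eq (hd : 0 < d) (c : ℕ → ℕ → k) (ρ : ℕ × ℕ) :
    vanP f d m l b c ρ = c 0 0 * TT f d m l b ρ 0 0 +
      ∑ j : Fin (cols d m (l * N0 d m)).length, c ((cols d m (l * N0 d m)).getD j (0, 0)).1
        ((cols d m (l * N0 d m)).getD j (0, 0)).2 * rw' f m l b d ρ j :=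
  sum_cols hd m (l * N0 d m) fun p => c p.1 p.2 * TT f d m l b ρ p.1 p.2

theorem cr_zero (S : List (ℕ × ℕ)) : crP f d m l b S 0 0 =
    (Matrix.of fun i j : Fin (cols d m (l * N0 d m)).length =>
      rw' f m l b d (S.getD i (0, 0)) j).det := by
  rw [crP]
  congr 1
  ext i j
  exact if_neg (mem_cols.1 (col_mem m l j)).2

theorem cr_col (S : List (ℕ × ℕ)) (j₀ : Fin (cols d m (l * N0 d m)).length) {e J : ℕ}
    (h : (cols d m (l * N0 d m)).getD j₀ (0, 0) = (e, J)) : crP f d m l b S e J =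
    (Matrix.of fun i j : Fin (cols d m (l * N0 d m)).length =>
      rw' f m l b d (S.getD i (0, 0)) j).cramer
        (fun i => -TT f d m l b (S.getD i (0, 0)) 0 0) j₀ := by
  rw [crP, Matrix.cramer_apply]
  congr 1
  ext i j
  rw [Matrix.updateCol_apply, Matrix.of_apply, ← h]
  by_cases e : j = j₀
  · rw [if_pos e, if_pos (by rw [e])]
  · rw [if_neg e, if_neg fun a => e (col_inj m l a)]
    rfl

end

theorem minor : StmtMINOR := by
  intro k _ f d m l μ fx b hl hm hd hP hU
  classical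
  have d0 : 0 < d := by omega
  obtain ⟨S₀, hW, hS⟩ := choose_rows (rw' f m l b d)
    {ρ | ρ.1 < mm d m ∧ ρ.2 < (if fx.getD ρ.1 0 = 1 then l else l - 1) * μ.getD ρ.1 0}
    fun x hx => by
      have e : ∀ j : Fin (cols d m (l * N0 d m)).length,
          (∑ i : Fin (cols d m (l * N0 d m)).length, if (cols d m (l * N0 d m)).getD i (0, 0) =
          (cols d m (l * N0 d m)).getD j (0, 0) then x i else 0) = x j := fun j => by
        rw [Finset.sum_eq_single j (fun i _ h => if_neg fun a => h (col_inj m l a)) (by simp),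
          if_pos rfl]
      have z : (∑ i : Fin (cols d m (l * N0 d m)).length,
          if (cols d m (l * N0 d m)).getD i (0, 0) = (0, 0) then x i else 0) = 0 :=
        Finset.sum_eq_zero fun i _ => if_neg (mem_cols.1 (col_mem m l i)).2
      have := hU (fun e J => ∑ i : Fin (cols d m (l * N0 d m)).length,
          if (cols d m (l * N0 d m)).getD i (0, 0) = (e, J) then x i else 0) z fun j hj r hr => by
          rw [van_eq f m l b d0]
          simp only [z, Prod.mk.eta, e, zero_mul, zero_add]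
          exact hx (j, r) ⟨hj, hr⟩
      funext j
      have h := (mem_cols.1 (col_mem m l j)).1
      exact (e j).symm.trans (this _ h.1 _ h.2)
  have h1 : ∀ ρ ∈ S₀, ρ.1 < mm d m ∧ ρ.2 < l * μ.getD ρ.1 0 := fun ρ h =>
    ⟨(hW h).1, (hW h).2.trans_le (Nat.mul_le_mul_right _ (by split_ifs <;> omega))⟩
  have h2 : ∀ ρ ∈ S₀, ρ ∈ rowsL d m l μ := fun ρ h => by
    have : μ.getD ρ.1 0 ≤ mm d m := (Finset.single_le_sum (f := fun j => μ.getD j 0)
      (fun _ _ => Nat.zero_le _) (Finset.mem_range.2 (h1 ρ h).1)).trans hP.1.le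
    rw [mem_rows, min_eq_left this]
    exact h1 ρ h
  set S := (rowsL d m l μ).filter fun ρ => decide (ρ ∈ S₀) with hSd
  have hm' : ∀ ρ, ρ ∈ S ↔ ρ ∈ S₀ := fun ρ => by
    simp only [hSd, List.mem_filter, decide_eq_true_eq]
    exact ⟨fun h => h.2, fun h => ⟨h2 ρ h, h⟩⟩
  obtain ⟨hlen, hdet⟩ := hS S ((nodup_rows d m l μ).filter _) hm'
  have hin : ∀ i : Fin (cols d m (l * N0 d m)).length, S.getD i (0, 0) ∈ S₀ := fun i => by
    rw [← hm', List.getD_eq_getElem _ _ (i.2.trans_eq hlen.symm)]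
    exact List.getElem_mem _
  set D := (rowsL d m l μ).filter fun ρ => !decide (ρ ∈ S₀) with hD
  have hDl : D.length ≤ g0 d m := by
    have a1 := List.length_eq_length_filter_add (l := rowsL d m l μ) fun ρ => decide (ρ ∈ S₀)
    have a2 := length_rows (l := l) hP.1
    have a3 := length_cols d0 m (l * N0 d m)
    rw [← hSd, ← hD, hlen] at a1
    rw [mm, mul_left_comm] at a2
    omega
  have hsel : selR d m l (μ, fx, D ++ List.replicate (g0 d m - D.length) (mm d m, 0)) = S := by
    refine List.filter_congr fun ρ hρ => ?_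
    have : ρ ≠ (mm d m, 0) := fun e => (mem_rows.1 hρ).1.ne (by rw [e])
    by_cases h : ρ ∈ S₀ <;> simp [hD, h, hρ, this]
  refine ⟨D ++ List.replicate (g0 d m - D.length) (mm d m, 0), mem_tuples.2 ⟨?_, fun a ha => ?_⟩,
    ?_⟩
  · rw [List.length_append, List.length_replicate]
    omega
  · rcases List.mem_append.1 ha with h | h
    · exact List.mem_cons_of_mem _ (List.mem_filter.1 h).1
    · rw [List.eq_of_mem_replicate h]
      exact List.mem_cons_self
  rw [hsel]
  refine ⟨by rwa [cr_zero], fun b' hb' c c0 hc J hJ e he => ?_, fun c c0 hc J hJ e he => ?_⟩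
  · by_cases h0 : (e, J) = (0, 0)
    · obtain ⟨rfl, rfl⟩ := Prod.mk.inj h0
      exact c0
    obtain ⟨j, hj⟩ := col_ex m l hJ he h0
    rw [cr_zero] at hb'
    have := Matrix.eq_zero_of_mulVec_eq_zero hb' (v := fun j =>
      c ((cols d m (l * N0 d m)).getD j (0, 0)).1 ((cols d m (l * N0 d m)).getD j (0, 0)).2)
      (funext fun i => by
        have := hc _ (hW (hin i)).1 _ (hW (hin i)).2
        rw [van_eq f m l b' d0, c0, zero_mul, zero_add] at this
        simpa [Matrix.mulVec, dotProduct, mul_comm] using this)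
    have := congrFun this j
    simp only [hj] at this
    exact this
  · by_cases h0 : (e, J) = (0, 0)
    · obtain ⟨rfl, rfl⟩ := Prod.mk.inj h0
      rw [c0, mul_one]
    obtain ⟨j, hj⟩ := col_ex m l hJ he h0
    have e1 : (fun i : Fin (cols d m (l * N0 d m)).length => -TT f d m l b (S.getD i (0, 0)) 0 0) =
        (Matrix.of fun i j : Fin (cols d m (l * N0 d m)).length =>
          rw' f m l b d (S.getD i (0, 0)) j).mulVec fun j =>
          c ((cols d m (l * N0 d m)).getD j (0, 0)).1 ((cols d m (l * N0 d m)).getD j (0, 0)).2 := by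
      funext i
      have := hc _ (h1 _ (hin i)).1 _ (h1 _ (hin i)).2
      rw [van_eq f m l b d0, c0, one_mul, add_eq_zero_iff_neg_eq] at this
      rw [this]
      exact Finset.sum_congr rfl fun j _ => mul_comm _ _
    rw [cr_col f m l b S j hj, cr_zero, e1, Matrix.cramer_eq_adjugate_mulVec, Matrix.mulVec_mulVec,
      Matrix.adjugate_mul, Matrix.smul_mulVec, Matrix.one_mulVec, Pi.smul_apply, smul_eq_mul, hj]

end Pool.Agent.MP_cce4c9_lc.H81
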